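import Mathlib

set_option autoImplicit false

namespace Pool.Agent.Helper963.RosaryLower

open Finset

section counting

variable {α : Type*} [DecidableEq α]

/-- Duplicate-free lists of length `b` with entries in `R`. -/
def injL : ℕ → Finset α → Finset (List α)
  | 0, _ => {[]}
  | b + 1, R => R.biUnion (fun x => (injL b (R.erase x)).image (List.cons x))

theorem mem_injL (b : ℕ) (R : Finset α) (y : List α) (hl : y.length = b) (hn : y.Nodup)
    (hR : ∀ a ∈ y, a ∈ R) : y ∈ injL b R := by
  induction b generalizing R y with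
  | zero =>
    rw [injL, Finset.mem_singleton]
    exact List.length_eq_zero_iff.1 hl
  | succ b ih =>
    obtain _ | ⟨x, y⟩ := y
    · simp at hl
    rw [injL, Finset.mem_biUnion]
    rw [List.nodup_cons] at hn
    refine ⟨x, hR x (by simp), ?_⟩
    rw [Finset.mem_image]
    refine ⟨y, ih (R.erase x) y (by simpa using hl) hn.2 ?_, rfl⟩
    intro a ha
    rw [Finset.mem_erase]
    refine ⟨?_, hR a (by simp [ha])⟩
    rintro rfl
    exact hn.1 ha

theorem cons_sublist_drop (x : α) (y F : List α) (h : List.Sublist (x :: y) F) :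
    x ∈ F ∧ List.Sublist y (F.drop (F.idxOf x + 1)) := by
  induction F with
  | nil => simp at h
  | cons a F ih =>
    by_cases hax : a = x
    · subst hax
      refine ⟨by simp, ?_⟩
      rw [List.idxOf_cons_self]
      have := List.cons_sublist_cons.1 h
      simpa using this
    · have h' : List.Sublist (x :: y) F := by
        rcases List.sublist_cons_iff.1 h with h1 | ⟨r, hr, h1⟩
        · exact h1
        · exfalso
          apply hax
          simp at hr
          exact hr.1.symm
      obtain ⟨h1, h2⟩ := ih h'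
      refine ⟨by simp [h1], ?_⟩
      rw [List.idxOf_cons_ne F (fun h => hax h)]
      simpa using h2

/-- Sum of an antitone function over a finite set of naturals is at most the sum over an
initial segment of the same size. -/
theorem sum_antitone_le (f : ℕ → ℝ) (hf : Antitone f) (s : Finset ℕ) :
    ∑ i ∈ s, f i ≤ ∑ i ∈ Finset.range s.card, f i := by
  induction hk : s.card generalizing s with
  | zero =>
    rw [Finset.card_eq_zero] at hk
    subst hk
    simp
  | succ k ih =>
    have hne : s.Nonempty := by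
      rw [← Finset.card_pos]; omega
    set M := s.max' hne with hM
    have hMs : M ∈ s := Finset.max'_mem s hne
    have hcard : (s.erase M).card = k := by
      rw [Finset.card_erase_of_mem hMs]; omega
    have hsub : s ⊆ Finset.range (M + 1) := by
      intro x hx
      rw [Finset.mem_range]
      exact Nat.lt_succ_of_le (Finset.le_max' s x hx)
    have hkM : k ≤ M := by
      have := Finset.card_le_card hsub
      rw [Finset.card_range] at this
      omega
    rw [← Finset.add_sum_erase s f hMs, Finset.sum_range_succ, add_comm]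
    exact add_le_add (ih _ hcard) (hf hkM)

/-- The count of duplicate-free words inside a word `F`, with exponential weights. -/
theorem count_le (z : ℝ) (hz0 : 0 < z) (hz1 : z ≤ 1) (b : ℕ) (R : Finset α) (F : List α) :
    (((injL b R).filter (fun y => List.Sublist y F)).card : ℝ) ≤
      (z⁻¹) ^ F.length * ∏ j ∈ Finset.range b, ∑ g ∈ Finset.range (R.card - j), z ^ (g + 1) := by
  have hzi : 1 ≤ z⁻¹ := (one_le_inv₀ hz0).2 hz1
  induction b generalizing R F with
  | zero =>
    rw [Finset.prod_range_zero, mul_one]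
    have h1 : ((injL 0 R).filter (fun y => List.Sublist y F)).card ≤ 1 := by
      refine le_trans (Finset.card_filter_le _ _) ?_
      simp [injL]
    calc (((injL 0 R).filter (fun y => List.Sublist y F)).card : ℝ) ≤ 1 := by exact_mod_cast h1
      _ ≤ _ := one_le_pow₀ hzi
  | succ b ih =>
    have hcard : ((injL (b + 1) R).filter (fun y => List.Sublist y F)).card ≤
        ∑ x ∈ R.filter (fun x => x ∈ F),
          ((injL b (R.erase x)).filter
            (fun y => List.Sublist y (F.drop (F.idxOf x + 1)))).card := by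
      have hsub : (injL (b + 1) R).filter (fun y => List.Sublist y F) ⊆
          (R.filter (fun x => x ∈ F)).biUnion (fun x =>
            ((injL b (R.erase x)).filter
              (fun y => List.Sublist y (F.drop (F.idxOf x + 1)))).image (List.cons x)) := by
        intro y hy
        rw [Finset.mem_filter, injL, Finset.mem_biUnion] at hy
        obtain ⟨⟨x, hxR, hx⟩, hyF⟩ := hy
        rw [Finset.mem_image] at hx
        obtain ⟨y', hy', rfl⟩ := hx
        obtain ⟨h1, h2⟩ := cons_sublist_drop x y' F hyF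
        rw [Finset.mem_biUnion]
        refine ⟨x, Finset.mem_filter.2 ⟨hxR, h1⟩, ?_⟩
        rw [Finset.mem_image]
        exact ⟨y', Finset.mem_filter.2 ⟨hy', h2⟩, rfl⟩
      refine le_trans (Finset.card_le_card hsub) (le_trans Finset.card_biUnion_le ?_)
      exact Finset.sum_le_sum (fun x _ => Finset.card_image_le)
    set Q : ℝ := ∏ j ∈ Finset.range b, ∑ g ∈ Finset.range (R.card - (j + 1)), z ^ (g + 1)
      with hQ
    have hQ0 : 0 ≤ Q := Finset.prod_nonneg (fun j _ =>
      Finset.sum_nonneg (fun g _ => by positivity))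
    calc (((injL (b + 1) R).filter (fun y => List.Sublist y F)).card : ℝ)
        ≤ ∑ x ∈ R.filter (fun x => x ∈ F),
          (((injL b (R.erase x)).filter
            (fun y => List.Sublist y (F.drop (F.idxOf x + 1)))).card : ℝ) := by
          exact_mod_cast hcard
      _ ≤ ∑ x ∈ R.filter (fun x => x ∈ F), (z⁻¹) ^ F.length * z ^ (F.idxOf x + 1) * Q := by
          apply Finset.sum_le_sum
          intro x hx
          rw [Finset.mem_filter] at hx
          refine le_trans (ih (R.erase x) (F.drop (F.idxOf x + 1))) ?_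
          have h1 : F.idxOf x < F.length := List.idxOf_lt_length_iff.2 hx.2
          have h2 : (z⁻¹) ^ (F.drop (F.idxOf x + 1)).length
              = (z⁻¹) ^ F.length * z ^ (F.idxOf x + 1) := by
            rw [List.length_drop]
            have h3 : F.length = (F.length - (F.idxOf x + 1)) + (F.idxOf x + 1) := by omega
            conv_rhs => rw [h3, pow_add, mul_assoc, ← mul_pow, inv_mul_cancel₀ hz0.ne', one_pow,
              mul_one]
          rw [h2]
          apply le_of_eq
          congr 1
          rw [hQ]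
          apply Finset.prod_congr rfl
          intro j _
          rw [Finset.card_erase_of_mem hx.1]
          congr 2
          omega
      _ = (z⁻¹) ^ F.length * (∑ x ∈ R.filter (fun x => x ∈ F), z ^ (F.idxOf x + 1)) * Q := by
          rw [Finset.mul_sum, Finset.sum_mul]
      _ ≤ (z⁻¹) ^ F.length * (∑ g ∈ Finset.range R.card, z ^ (g + 1)) * Q := by
          have hanti : Antitone (fun g : ℕ => z ^ (g + 1)) := by
            intro a c hac
            exact pow_le_pow_of_le_one hz0.le hz1 (by omega)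
          have hinj : Set.InjOn (fun x => F.idxOf x) (R.filter (fun x => x ∈ F) : Set α) := by
            intro x hx y hy hxy
            simp only [Finset.coe_filter, Set.mem_ofPred_eq] at hx hy
            exact (List.idxOf_inj hx.2).1 hxy
          have h1 : ∑ x ∈ R.filter (fun x => x ∈ F), z ^ (F.idxOf x + 1)
              = ∑ i ∈ (R.filter (fun x => x ∈ F)).image (fun x => F.idxOf x), z ^ (i + 1) := by
            rw [Finset.sum_image hinj]
          have h2 : ((R.filter (fun x => x ∈ F)).image (fun x => F.idxOf x)).card ≤ R.card :=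
            le_trans Finset.card_image_le (Finset.card_filter_le _ _)
          have h3 : ∑ x ∈ R.filter (fun x => x ∈ F), z ^ (F.idxOf x + 1)
              ≤ ∑ g ∈ Finset.range R.card, z ^ (g + 1) := by
            rw [h1]
            refine le_trans (sum_antitone_le _ hanti _) ?_
            apply Finset.sum_le_sum_of_subset_of_nonneg
            · exact Finset.range_mono h2
            · intro i _ _
              positivity
          have h4 : (0 : ℝ) ≤ (z⁻¹) ^ F.length := by positivity
          exact mul_le_mul_of_nonneg_right (mul_le_mul_of_nonneg_left h3 h4) hQ0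
      _ = _ := by
          rw [Finset.prod_range_succ']
          simp only [Nat.sub_zero]
          rw [← hQ]
          ring

end counting

section split

variable {α : Type*}

/-- If a word embeds in `v`, one of its `L` consecutive blocks embeds in a short factor. -/
theorem split_blocks (b L : ℕ) (hL : 1 ≤ L) (y v : List α) (h : List.Sublist y v) :
    ∃ s, s < L ∧ ∃ v₁ V v₂ : List α, v = v₁ ++ V ++ v₂ ∧
      List.Sublist ((y.drop (s * b)).take b) V ∧ V.length * L ≤ v.length := by
  induction L, hL using Nat.le_induction generalizing y v with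
  | base =>
    refine ⟨0, by omega, [], v, [], by simp, ?_, by simp⟩
    simp only [zero_mul, List.drop_zero]
    exact (List.take_sublist b y).trans h
  | succ L hL ih =>
    have h' := h
    rw [← List.take_append_drop b y, List.append_sublist_iff] at h'
    obtain ⟨r₁, r₂, rfl, h1, h2⟩ := h'
    by_cases hr : r₁.length * (L + 1) ≤ (r₁ ++ r₂).length
    · refine ⟨0, by omega, [], r₁, r₂, by simp, ?_, hr⟩
      simpa using h1
    · obtain ⟨s, hs, v₁, V, v₂, hv, hV, hlen⟩ := ih (y.drop b) r₂ h2
      refine ⟨s + 1, by omega, r₁ ++ v₁, V, v₂, ?_, ?_, ?_⟩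
      · rw [hv]; simp
      · have : (s + 1) * b = b + s * b := by ring
        rw [this, ← List.drop_drop]
        exact hV
      · rw [List.length_append] at hr ⊢
        -- V * L ≤ r2, r1*(L+1) > r1 + r2  so r1 * L > r2
        have h3 : r₂.length < r₁.length * L := by
          rw [mul_add, mul_one] at hr
          omega
        have h4 : V.length * L < r₁.length * L := lt_of_le_of_lt hlen h3
        have h5 : V.length < r₁.length := lt_of_mul_lt_mul_right h4 (Nat.zero_le _)
        rw [mul_add, mul_one]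
        omega

end split

section perms

open scoped Nat

/-- The `s`-th block of length `b` of a permutation written as a word. -/
def block (n b s : ℕ) (σ : Equiv.Perm (Fin n)) : List (Fin n) :=
  ((List.ofFn (⇑σ)).drop (s * b)).take b

theorem fiber_le (n b s : ℕ) (hs : s * b + b ≤ n) (x : List (Fin n)) :
    ((Finset.univ : Finset (Equiv.Perm (Fin n))).filter (fun σ => block n b s σ = x)).card
      ≤ (n - b)! := by
  classical
  by_cases hne : ((Finset.univ : Finset (Equiv.Perm (Fin n))).filter
      (fun σ => block n b s σ = x)).Nonempty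
  · obtain ⟨σ₀, hσ₀⟩ := hne
    rw [Finset.mem_filter] at hσ₀
    set p : Fin n → Prop := fun a => ¬ (s * b ≤ a.val ∧ a.val < s * b + b) with hp
    have hagree : ∀ σ : Equiv.Perm (Fin n), block n b s σ = x → ∀ a, ¬ p a →
        (σ₀⁻¹ * σ) a = a := by
      intro σ hσ a ha
      rw [hp] at ha
      simp only [not_not] at ha
      have h1 : block n b s σ = block n b s σ₀ := by rw [hσ, hσ₀.2]
      have h2 := congrArg (fun l => l[a.val - s * b]?) h1
      have h3 : a.val - s * b < b := by omega
      have h4 : s * b + (a.val - s * b) = a.val := by omega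
      simp only [block, List.getElem?_take, h3, if_true, List.getElem?_drop, h4,
        List.getElem?_ofFn, a.isLt, dif_pos, Option.some.injEq] at h2
      rw [Equiv.Perm.mul_apply, h2]
      simp
    have hinj : ((Finset.univ : Finset (Equiv.Perm (Fin n))).filter
        (fun σ => block n b s σ = x)).card ≤
        Fintype.card {τ : Equiv.Perm (Fin n) // ∀ a, ¬ p a → τ a = a} := by
      rw [← Fintype.card_coe]
      refine Fintype.card_le_of_injective
        (fun σ => ⟨σ₀⁻¹ * σ.1, hagree σ.1 (Finset.mem_filter.1 σ.2).2⟩) ?_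
      intro σ τ h
      have h1 := congrArg Subtype.val h
      simp only [mul_right_inj] at h1
      exact Subtype.ext h1
    refine le_trans hinj ?_
    rw [← Fintype.card_congr (Equiv.Perm.subtypeEquivSubtypePerm p), Fintype.card_perm]
    apply Nat.factorial_le
    have hc : Fintype.card {a : Fin n // ¬ (s * b ≤ a.val ∧ a.val < s * b + b)}
        = Fintype.card (Fin n)
          - Fintype.card {a : Fin n // s * b ≤ a.val ∧ a.val < s * b + b} :=
      Fintype.card_subtype_compl _
    have hc2 : Fintype.card {a : Fin n // s * b ≤ a.val ∧ a.val < s * b + b} = b := by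
      rw [Fintype.card_subtype]
      have hmap : ((Finset.univ : Finset (Fin n)).filter
          (fun a => s * b ≤ a.val ∧ a.val < s * b + b)).map Fin.valEmbedding
          = Finset.Ico (s * b) (s * b + b) := by
        ext i
        simp only [Finset.mem_map, Finset.mem_filter, Finset.mem_univ, true_and,
          Fin.valEmbedding_apply, Finset.mem_Ico]
        constructor
        · rintro ⟨a, ha, rfl⟩
          exact ha
        · intro hi
          exact ⟨⟨i, by omega⟩, hi, rfl⟩
      rw [← Finset.card_map Fin.valEmbedding, hmap, Nat.card_Ico]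
      omega
    rw [Fintype.card_fin, hc2] at hc
    exact le_of_eq hc
  · rw [Finset.not_nonempty_iff_eq_empty] at hne
    rw [hne]
    simp

theorem block_mem (n b s : ℕ) (hs : s * b + b ≤ n) (σ : Equiv.Perm (Fin n)) :
    block n b s σ ∈ injL b (Finset.univ : Finset (Fin n)) := by
  apply mem_injL
  · unfold block
    rw [List.length_take, List.length_drop, List.length_ofFn]
    omega
  · unfold block
    have h1 : (List.ofFn (⇑σ)).Nodup := List.nodup_ofFn.2 σ.injective
    exact (h1.sublist (List.drop_sublist _ _)).sublist (List.take_sublist _ _)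
  · intro a _
    exact Finset.mem_univ a

theorem block_count (n b s : ℕ) (hs : s * b + b ≤ n) (z : ℝ) (hz0 : 0 < z) (hz1 : z ≤ 1)
    (F : List (Fin n)) :
    (((Finset.univ : Finset (Equiv.Perm (Fin n))).filter
      (fun σ => List.Sublist (block n b s σ) F)).card : ℝ) ≤
      (n - b)! * ((z⁻¹) ^ F.length *
        ∏ j ∈ Finset.range b, ∑ g ∈ Finset.range (n - j), z ^ (g + 1)) := by
  classical
  have h1 : ((Finset.univ : Finset (Equiv.Perm (Fin n))).filter
      (fun σ => List.Sublist (block n b s σ) F)).card ≤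
      (n - b)! * ((injL b (Finset.univ : Finset (Fin n))).filter
        (fun y => List.Sublist y F)).card := by
    refine le_trans (Finset.card_le_mul_card_image (f := block n b s) _ ((n - b)!) ?_) ?_
    · intro x _
      refine le_trans (Finset.card_le_card ?_) (fiber_le n b s hs x)
      intro σ hσ
      rw [Finset.mem_filter] at hσ ⊢
      exact ⟨Finset.mem_univ _, hσ.2⟩
    · apply Nat.mul_le_mul_left
      apply Finset.card_le_card
      intro y hy
      rw [Finset.mem_image] at hy
      obtain ⟨σ, hσ, rfl⟩ := hy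
      rw [Finset.mem_filter] at hσ ⊢
      exact ⟨block_mem n b s hs σ, hσ.2⟩
  have h2 := count_le z hz0 hz1 b (Finset.univ : Finset (Fin n)) F
  rw [Finset.card_univ, Fintype.card_fin] at h2
  calc (((Finset.univ : Finset (Equiv.Perm (Fin n))).filter
      (fun σ => List.Sublist (block n b s σ) F)).card : ℝ)
      ≤ (n - b)! * (((injL b (Finset.univ : Finset (Fin n))).filter
        (fun y => List.Sublist y F)).card : ℝ) := by exact_mod_cast h1
    _ ≤ _ := mul_le_mul_of_nonneg_left h2 (Nat.cast_nonneg _)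

/-- Every permutation has a block inside a short cyclic factor. -/
theorem exists_block (n b L : ℕ) (hL : 1 ≤ L) (l : List (Fin n)) (hl : l ≠ [])
    (σ : Equiv.Perm (Fin n)) (k : ℕ) (h : List.Sublist (List.ofFn (⇑σ)) (l.rotate k)) :
    ∃ s, s < L ∧ ∃ p, p < l.length ∧
      List.Sublist (block n b s σ) ((l.rotate p).take (l.length / L)) := by
  obtain ⟨s, hs, v₁, V, v₂, hv, hV, hlen⟩ := split_blocks b L hL _ _ h
  rw [List.length_rotate] at hlen
  have hpos : 0 < l.length := List.length_pos_iff.2 hl
  refine ⟨s, hs, (k + v₁.length) % l.length, Nat.mod_lt _ hpos, ?_⟩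
  rw [List.rotate_mod, ← List.rotate_rotate, hv, List.append_assoc, List.rotate_append_length_eq,
    List.append_assoc]
  have h1 : V.length ≤ l.length / L := (Nat.le_div_iff_mul_le (by omega)).2 hlen
  refine hV.trans ?_
  rw [List.take_append, List.take_of_length_le h1]
  exact List.sublist_append_left _ _

/-- The union bound. -/
theorem union_bound (n b L : ℕ) (hn : 1 ≤ n) (hL : 1 ≤ L) (hLb : L * b ≤ n) (l : List (Fin n))
    (hu : ∀ σ : Equiv.Perm (Fin n), ∃ k : ℕ, List.Sublist (List.ofFn (⇑σ)) (l.rotate k))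
    (z : ℝ) (hz0 : 0 < z) (hz1 : z ≤ 1) :
    (n ! : ℝ) ≤ (L * l.length : ℝ) * ((n - b)! * ((z⁻¹) ^ (l.length / L) *
        ∏ j ∈ Finset.range b, ∑ g ∈ Finset.range (n - j), z ^ (g + 1))) := by
  classical
  have hl : l ≠ [] := by
    rintro rfl
    obtain ⟨k, hk⟩ := hu 1
    have := hk.length_le
    simp at this
    omega
  have hcover : (Finset.univ : Finset (Equiv.Perm (Fin n))) ⊆
      (Finset.range L ×ˢ Finset.range l.length).biUnion (fun q =>
        (Finset.univ : Finset (Equiv.Perm (Fin n))).filter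
          (fun σ => List.Sublist (block n b q.1 σ) ((l.rotate q.2).take (l.length / L)))) := by
    intro σ _
    obtain ⟨k, hk⟩ := hu σ
    obtain ⟨s, hs, p, hp, h⟩ := exists_block n b L hL l hl σ k hk
    rw [Finset.mem_biUnion]
    exact ⟨(s, p), Finset.mem_product.2 ⟨Finset.mem_range.2 hs, Finset.mem_range.2 hp⟩,
      Finset.mem_filter.2 ⟨Finset.mem_univ _, h⟩⟩
  have hcard := Finset.card_le_card hcover
  rw [Finset.card_univ, Fintype.card_perm, Fintype.card_fin] at hcard
  have hcard2 : ((n ! : ℕ) : ℝ) ≤ ∑ q ∈ Finset.range L ×ˢ Finset.range l.length,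
      (((Finset.univ : Finset (Equiv.Perm (Fin n))).filter
        (fun σ => List.Sublist (block n b q.1 σ)
          ((l.rotate q.2).take (l.length / L)))).card : ℝ) := by
    have := le_trans hcard Finset.card_biUnion_le
    exact_mod_cast this
  refine le_trans hcard2 ?_
  have hzi : 1 ≤ z⁻¹ := (one_le_inv₀ hz0).2 hz1
  have hterm : ∀ q ∈ Finset.range L ×ˢ Finset.range l.length,
      (((Finset.univ : Finset (Equiv.Perm (Fin n))).filter
        (fun σ => List.Sublist (block n b q.1 σ)
          ((l.rotate q.2).take (l.length / L)))).card : ℝ) ≤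
      (n - b)! * ((z⁻¹) ^ (l.length / L) *
        ∏ j ∈ Finset.range b, ∑ g ∈ Finset.range (n - j), z ^ (g + 1)) := by
    intro q hq
    rw [Finset.mem_product, Finset.mem_range, Finset.mem_range] at hq
    have hqs : q.1 * b + b ≤ n := by
      have : (q.1 + 1) * b ≤ L * b := Nat.mul_le_mul_right b hq.1
      rw [add_mul, one_mul] at this
      omega
    refine le_trans (block_count n b q.1 hqs z hz0 hz1 _) ?_
    apply mul_le_mul_of_nonneg_left _ (Nat.cast_nonneg _)
    apply mul_le_mul_of_nonneg_right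
    · apply pow_le_pow_right₀ hzi
      rw [List.length_take]
      exact min_le_left _ _
    · exact Finset.prod_nonneg (fun j _ => Finset.sum_nonneg (fun g _ => by positivity))
  refine le_trans (Finset.sum_le_sum hterm) ?_
  rw [Finset.sum_const, Finset.card_product, Finset.card_range, Finset.card_range, nsmul_eq_mul]
  push_cast
  exact le_refl _

end perms

section analysis

open scoped Nat

theorem sum_exp_le (θ : ℝ) (r : ℕ) :
    ∑ g ∈ Finset.range r, (Real.exp (-θ)) ^ (g + 1) ≤
      r * Real.exp (-θ * (r + 1) / 2 + θ ^ 2 * r ^ 2 / 8) := by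
  have h1 : ∀ g : ℕ, (Real.exp (-θ)) ^ (g + 1) = Real.exp (-θ * (g + 1)) := by
    intro g
    rw [← Real.exp_nat_mul]
    congr 1
    push_cast
    ring
  simp_rw [h1]
  have h2 : ∑ g ∈ Finset.range r, Real.exp (-θ * ((g : ℝ) + 1))
      = ∑ g ∈ Finset.range r, Real.exp (-θ * ((r : ℝ) - g)) := by
    rw [← Finset.sum_range_reflect]
    apply Finset.sum_congr rfl
    intro g hg
    rw [Finset.mem_range] at hg
    have h3 : ((r - 1 - g : ℕ) : ℝ) = (r : ℝ) - 1 - g := by
      rw [Nat.cast_sub (by omega), Nat.cast_sub (by omega)]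
      simp
    rw [h3]
    congr 1
    ring
  have h4 : 2 * ∑ g ∈ Finset.range r, Real.exp (-θ * ((g : ℝ) + 1))
      = ∑ g ∈ Finset.range r,
        (Real.exp (-θ * ((g : ℝ) + 1)) + Real.exp (-θ * ((r : ℝ) - g))) := by
    rw [Finset.sum_add_distrib, ← h2]
    ring
  have h5 : ∀ g ∈ Finset.range r,
      (Real.exp (-θ * ((g : ℝ) + 1)) + Real.exp (-θ * ((r : ℝ) - g))) ≤
      2 * Real.exp (-θ * (r + 1) / 2 + θ ^ 2 * r ^ 2 / 8) := by
    intro g hg
    rw [Finset.mem_range] at hg
    set w : ℝ := θ * ((g : ℝ) + 1 - (r + 1) / 2) with hw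
    have h6 : Real.exp (-θ * ((g : ℝ) + 1)) + Real.exp (-θ * ((r : ℝ) - g))
        = 2 * (Real.exp (-θ * (r + 1) / 2) * Real.cosh w) := by
      rw [Real.cosh_eq, hw]
      have e1 : Real.exp (-θ * ((g : ℝ) + 1)) = Real.exp (-θ * (r + 1) / 2) *
          Real.exp (-(θ * ((g : ℝ) + 1 - (r + 1) / 2))) := by
        rw [← Real.exp_add]; congr 1; ring
      have e2 : Real.exp (-θ * ((r : ℝ) - g)) = Real.exp (-θ * (r + 1) / 2) *
          Real.exp (θ * ((g : ℝ) + 1 - (r + 1) / 2)) := by
        rw [← Real.exp_add]; congr 1; ring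
      rw [e1, e2]
      ring
    rw [h6]
    have h7 : Real.cosh w ≤ Real.exp (θ ^ 2 * r ^ 2 / 8) := by
      refine le_trans (Real.cosh_le_exp_half_sq w) ?_
      apply Real.exp_le_exp.2
      have h8 : ((g : ℝ) + 1 - (r + 1) / 2) ^ 2 ≤ ((r : ℝ) / 2) ^ 2 := by
        apply sq_le_sq'
        · have : (0 : ℝ) ≤ g := Nat.cast_nonneg g
          linarith
        · have : (g : ℝ) + 1 ≤ r := by exact_mod_cast hg
          linarith
      rw [hw, mul_pow]
      have h9 : θ ^ 2 * ((g : ℝ) + 1 - (r + 1) / 2) ^ 2 ≤ θ ^ 2 * ((r : ℝ) / 2) ^ 2 :=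
        mul_le_mul_of_nonneg_left h8 (sq_nonneg θ)
      calc θ ^ 2 * ((g : ℝ) + 1 - (r + 1) / 2) ^ 2 / 2
          ≤ θ ^ 2 * ((r : ℝ) / 2) ^ 2 / 2 := by linarith
        _ = θ ^ 2 * r ^ 2 / 8 := by ring
    rw [Real.exp_add]
    exact mul_le_mul_of_nonneg_left
      (mul_le_mul_of_nonneg_left h7 (Real.exp_pos _).le) (by norm_num)
  have h10 := Finset.sum_le_sum h5
  rw [← h4, Finset.sum_const, Finset.card_range, nsmul_eq_mul] at h10
  linarith

theorem sum_means (n b : ℕ) (hb : b ≤ n) :
    (b * n / 2 - b ^ 2 / 4 : ℝ) ≤ ∑ j ∈ Finset.range b, (((n - j : ℕ) : ℝ) + 1) / 2 := by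
  have h1 : ∀ b : ℕ, b ≤ n → ∑ j ∈ Finset.range b, (((n - j : ℕ) : ℝ) + 1) / 2
      = (b * n / 2 + b / 2 - b * (b - 1) / 4 : ℝ) := by
    intro b
    induction b with
    | zero => intro _; simp
    | succ b ih =>
      intro hb'
      rw [Finset.sum_range_succ, ih (by omega), Nat.cast_sub (by omega)]
      push_cast
      ring
  rw [h1 b hb]
  have : (0 : ℝ) ≤ b := Nat.cast_nonneg b
  nlinarith

/-- The key inequality. -/
theorem key_ineq (n b L : ℕ) (hn : 1 ≤ n) (hL : 1 ≤ L) (hLb : L * b ≤ n) (l : List (Fin n))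
    (hu : ∀ σ : Equiv.Perm (Fin n), ∃ k : ℕ, List.Sublist (List.ofFn (⇑σ)) (l.rotate k))
    (θ : ℝ) (hθ : 0 < θ) :
    θ * (b * n / 2 - b ^ 2 / 4) ≤
      Real.log (L * l.length) + θ * (l.length / L) + θ ^ 2 * b * n ^ 2 / 8 := by
  have hbn : b ≤ n := by
    have : 1 * b ≤ L * b := Nat.mul_le_mul_right b hL
    omega
  have hz1 : Real.exp (-θ) ≤ 1 := by
    rw [Real.exp_le_one_iff]; linarith
  have h := union_bound n b L hn hL hLb l hu (Real.exp (-θ)) (Real.exp_pos _) hz1
  have hprod : ∏ j ∈ Finset.range b, ∑ g ∈ Finset.range (n - j), (Real.exp (-θ)) ^ (g + 1) ≤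
      (n.descFactorial b : ℝ) * Real.exp (-θ * (b * n / 2 - b ^ 2 / 4) + θ ^ 2 * b * n ^ 2 / 8) := by
    have h1 : ∏ j ∈ Finset.range b, ∑ g ∈ Finset.range (n - j), (Real.exp (-θ)) ^ (g + 1) ≤
        ∏ j ∈ Finset.range b, (((n - j : ℕ) : ℝ) *
          Real.exp (-θ * (((n - j : ℕ) : ℝ) + 1) / 2 + θ ^ 2 * n ^ 2 / 8)) := by
      apply Finset.prod_le_prod
      · intro j _
        exact Finset.sum_nonneg (fun g _ => by positivity)
      · intro j _
        refine le_trans (sum_exp_le θ (n - j)) ?_
        apply mul_le_mul_of_nonneg_left _ (Nat.cast_nonneg _)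
        apply Real.exp_le_exp.2
        have h2 : ((n - j : ℕ) : ℝ) ^ 2 ≤ (n : ℝ) ^ 2 := by
          apply pow_le_pow_left₀ (Nat.cast_nonneg _)
          exact_mod_cast Nat.sub_le n j
        have h3 : θ ^ 2 * ((n - j : ℕ) : ℝ) ^ 2 ≤ θ ^ 2 * (n : ℝ) ^ 2 :=
          mul_le_mul_of_nonneg_left h2 (sq_nonneg θ)
        linarith
    refine le_trans h1 ?_
    rw [Finset.prod_mul_distrib, ← Real.exp_sum]
    have h4 : (∏ j ∈ Finset.range b, ((n - j : ℕ) : ℝ)) = (n.descFactorial b : ℝ) := by
      rw [Nat.descFactorial_eq_prod_range]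
      push_cast
      rfl
    rw [h4]
    apply mul_le_mul_of_nonneg_left _ (Nat.cast_nonneg _)
    apply Real.exp_le_exp.2
    have h5 : ∑ j ∈ Finset.range b, (-θ * (((n - j : ℕ) : ℝ) + 1) / 2 + θ ^ 2 * n ^ 2 / 8)
        = -θ * (∑ j ∈ Finset.range b, (((n - j : ℕ) : ℝ) + 1) / 2)
          + b * (θ ^ 2 * n ^ 2 / 8) := by
      rw [Finset.sum_add_distrib, Finset.sum_const, Finset.card_range, nsmul_eq_mul,
        Finset.mul_sum]
      congr 1
      apply Finset.sum_congr rfl
      intro j _
      ring
    rw [h5]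
    have h6 := mul_le_mul_of_nonneg_left (sum_means n b hbn) hθ.le
    nlinarith
  have hfac : ((n - b)! : ℝ) * (n.descFactorial b : ℝ) = (n ! : ℝ) := by
    exact_mod_cast Nat.factorial_mul_descFactorial hbn
  have hfpos : (0 : ℝ) < (n ! : ℝ) := by exact_mod_cast Nat.factorial_pos n
  set Ex := Real.exp (-θ * (b * n / 2 - b ^ 2 / 4) + θ ^ 2 * b * n ^ 2 / 8) with hEx
  have hzi : (0 : ℝ) ≤ ((Real.exp (-θ))⁻¹) ^ (l.length / L) := by positivity
  have h7 : (n ! : ℝ) ≤ (n ! : ℝ) *
      ((L * l.length : ℝ) * (((Real.exp (-θ))⁻¹) ^ (l.length / L) * Ex)) := by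
    calc (n ! : ℝ) ≤ _ := h
      _ ≤ (L * l.length : ℝ) * ((n - b)! * (((Real.exp (-θ))⁻¹) ^ (l.length / L) *
          ((n.descFactorial b : ℝ) * Ex))) := by
        apply mul_le_mul_of_nonneg_left _ (by positivity)
        apply mul_le_mul_of_nonneg_left _ (by positivity)
        exact mul_le_mul_of_nonneg_left hprod hzi
      _ = ((n - b)! * (n.descFactorial b : ℝ)) * ((L * l.length : ℝ) *
          (((Real.exp (-θ))⁻¹) ^ (l.length / L) * Ex)) := by ring
      _ = _ := by rw [hfac]
  have h8 : 1 ≤ (L * l.length : ℝ) * (((Real.exp (-θ))⁻¹) ^ (l.length / L) * Ex) := by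
    by_contra h0
    rw [not_le] at h0
    have := mul_lt_mul_of_pos_left h0 hfpos
    rw [mul_one] at this
    linarith
  have hLl : (0 : ℝ) < (L * l.length : ℝ) := by
    by_contra h0
    have h9 : (L * l.length : ℝ) = 0 := le_antisymm (not_lt.1 h0) (by positivity)
    rw [h9, zero_mul] at h8
    linarith
  have h10 : ((Real.exp (-θ))⁻¹) ^ (l.length / L) ≤ Real.exp (θ * (l.length / L : ℝ)) := by
    rw [← Real.exp_neg, ← Real.exp_nat_mul, neg_neg]
    apply Real.exp_le_exp.2
    rw [mul_comm]
    apply mul_le_mul_of_nonneg_left _ hθ.le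
    exact Nat.cast_div_le
  have h11 : 1 ≤ (L * l.length : ℝ) * (Real.exp (θ * (l.length / L : ℝ)) * Ex) := by
    refine le_trans h8 ?_
    apply mul_le_mul_of_nonneg_left _ hLl.le
    exact mul_le_mul_of_nonneg_right h10 (Real.exp_pos _).le
  have h12 := Real.log_le_log (by norm_num) h11
  rw [Real.log_one, Real.log_mul hLl.ne' (by positivity), hEx, ← Real.exp_add, Real.log_exp] at h12
  linarith

/-- The final lower bound on the length of a permutation covering cycle. -/
theorem lower_bound (n : ℕ) (hn : 2 ≤ n) (l : List (Fin n))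
    (hu : ∀ σ : Equiv.Perm (Fin n), ∃ k : ℕ, List.Sublist (List.ofFn (⇑σ)) (l.rotate k)) :
    (n : ℝ) ^ 2 / 2 - 5 * ((n : ℝ) ^ (5 / 3 : ℝ) * (Real.log n) ^ (1 / 3 : ℝ)) ≤ l.length := by
  have hn2 : (2 : ℝ) ≤ n := by exact_mod_cast hn
  have hn0 : (0 : ℝ) < n := by linarith
  have hlogpos : 0 < Real.log n := Real.log_pos (by linarith)
  set X : ℝ := ((n : ℝ) ^ 2 * Real.log n) ^ (1 / 3 : ℝ) with hX
  have hXpos : 0 < X := by rw [hX]; positivity
  have hX3 : X ^ 3 = (n : ℝ) ^ 2 * Real.log n := by
    rw [hX, ← Real.rpow_natCast, ← Real.rpow_mul (by positivity)]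
    norm_num
  have hE : (n : ℝ) ^ (5 / 3 : ℝ) * (Real.log n) ^ (1 / 3 : ℝ) = n * X := by
    rw [hX, Real.mul_rpow (by positivity) hlogpos.le, ← Real.rpow_natCast,
      ← Real.rpow_mul hn0.le, ← mul_assoc]
    congr 1
    nth_rewrite 2 [← Real.rpow_one (n : ℝ)]
    rw [← Real.rpow_add hn0]
    norm_num
  rw [hE]
  have hX1 : 1 ≤ X := by
    by_contra h0
    rw [not_le] at h0
    have h1 : X ^ 3 < 1 := pow_lt_one₀ hXpos.le h0 (by norm_num)
    rw [hX3] at h1
    have h2 : Real.log 2 ≤ Real.log n := Real.log_le_log (by norm_num) hn2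
    have h3 := Real.log_two_gt_d9
    nlinarith
  have hXn : X ≤ n := by
    by_contra h0
    rw [not_le] at h0
    have h1 : (n : ℝ) ^ 3 < X ^ 3 := pow_lt_pow_left₀ h0 hn0.le (by norm_num)
    rw [hX3] at h1
    have h2 : Real.log n ≤ n - 1 := Real.log_le_sub_one_of_pos hn0
    have h3 : (n : ℝ) ^ 2 * Real.log n ≤ (n : ℝ) ^ 2 * (n - 1) :=
      mul_le_mul_of_nonneg_left h2 (by positivity)
    nlinarith
  set b : ℕ := ⌈X⌉₊ with hb
  have hb1 : X ≤ b := Nat.le_ceil X
  have hb2 : (b : ℝ) < X + 1 := Nat.ceil_lt_add_one hXpos.le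
  have hbn : b ≤ n := Nat.ceil_le.2 hXn
  have hb0 : 0 < b := Nat.ceil_pos.2 hXpos
  have hb0' : (0 : ℝ) < b := by exact_mod_cast hb0
  have hbn' : (b : ℝ) ≤ n := by exact_mod_cast hbn
  set L : ℕ := n / b with hL
  have hL1 : 1 ≤ L := (Nat.one_le_div_iff hb0).2 hbn
  have hLb : L * b ≤ n := Nat.div_mul_le_self n b
  have hLb2 : n < L * b + b := by
    have := Nat.lt_div_mul_add (a := n) hb0
    omega
  have hLb' : (L * b : ℝ) ≤ n := by exact_mod_cast hLb
  have hLb2' : (n : ℝ) < L * b + b := by exact_mod_cast hLb2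
  have hL1' : (1 : ℝ) ≤ L := by exact_mod_cast hL1
  by_cases hlen : (n : ℝ) ^ 2 < l.length
  · have : 0 ≤ 5 * (n * X) := by positivity
    nlinarith
  rw [not_lt] at hlen
  set M : ℝ := (l.length : ℝ) with hM
  have hM0 : 0 < M := by
    rw [hM]
    have hl : l ≠ [] := by
      rintro rfl
      obtain ⟨k, hk⟩ := hu 1
      have := hk.length_le
      simp at this
      omega
    exact_mod_cast List.length_pos_iff.2 hl
  set θ : ℝ := X / (n : ℝ) ^ 2 with hθ
  have hθpos : 0 < θ := by rw [hθ]; positivity
  have hkey := key_ineq n b L (by omega) hL1 hLb l hu θ hθpos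
  rw [← hM] at hkey
  have hlog : Real.log (L * M) ≤ 3 * Real.log n := by
    have h1 : (3 : ℝ) * Real.log n = Real.log ((n : ℝ) ^ 3) := by
      rw [Real.log_pow]
      norm_num
    rw [h1]
    apply Real.log_le_log (by positivity)
    have hLn : (L : ℝ) ≤ n := by
      have : L ≤ n := Nat.div_le_self n b
      exact_mod_cast this
    calc (L : ℝ) * M ≤ n * (n : ℝ) ^ 2 := mul_le_mul hLn hlen hM0.le hn0.le
      _ = (n : ℝ) ^ 3 := by ring
  -- multiply the key inequality by L / θ
  have hk2 : L * (b * n / 2 - b ^ 2 / 4 : ℝ) ≤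
      L * (3 * Real.log n) / θ + M + θ * (L * b) * n ^ 2 / 8 := by
    have h1 : θ * (b * n / 2 - b ^ 2 / 4 : ℝ) ≤
        3 * Real.log n + θ * (M / L) + θ ^ 2 * b * n ^ 2 / 8 := by linarith
    have h2 := mul_le_mul_of_nonneg_left h1 (show (0 : ℝ) ≤ L / θ by positivity)
    have h3 : (L / θ : ℝ) * (θ * (b * n / 2 - b ^ 2 / 4)) = L * (b * n / 2 - b ^ 2 / 4) := by
      field_simp
    have h4 : (L / θ : ℝ) * (3 * Real.log n + θ * (M / L) + θ ^ 2 * b * n ^ 2 / 8)
        = L * (3 * Real.log n) / θ + M + θ * (L * b) * n ^ 2 / 8 := by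
      have hLne : (L : ℝ) ≠ 0 := by linarith
      field_simp
    rw [h3, h4] at h2
    exact h2
  have hA : (n : ℝ) ^ 2 / 2 - 3 / 4 * (n * b) ≤ L * (b * n / 2 - b ^ 2 / 4 : ℝ) := by
    have h1 : L * (b * n / 2 - b ^ 2 / 4 : ℝ) = (L * b) * (n / 2 - b / 4) := by ring
    rw [h1]
    have h2 : (0 : ℝ) ≤ n / 2 - b / 4 := by linarith
    have h3 : ((n : ℝ) - b) * (n / 2 - b / 4) ≤ (L * b) * (n / 2 - b / 4) :=
      mul_le_mul_of_nonneg_right (by linarith) h2
    nlinarith [sq_nonneg (b : ℝ)]
  have hB : θ * (L * b) * n ^ 2 / 8 ≤ n * X / 8 := by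
    have h1 : θ * (L * b) * n ^ 2 / 8 = X * (L * b) / 8 := by
      rw [hθ]; field_simp
    rw [h1]
    have h2 := mul_le_mul_of_nonneg_left hLb' hXpos.le
    linarith
  have hC : L * (3 * Real.log n) / θ ≤ 3 * (n * X) := by
    have h1 : L * (3 * Real.log n) / θ = 3 * L * X ^ 2 := by
      rw [hθ]
      have h2 : Real.log n = X ^ 3 / (n : ℝ) ^ 2 := by
        rw [hX3]; field_simp
      rw [h2]
      field_simp
    rw [h1]
    have h3 : (L : ℝ) * X ≤ n := by
      calc (L : ℝ) * X ≤ L * b := mul_le_mul_of_nonneg_left hb1 (by linarith)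
        _ ≤ n := hLb'
    have h4 := mul_le_mul_of_nonneg_right h3 hXpos.le
    have h5 : 3 * L * X ^ 2 = 3 * ((L : ℝ) * X * X) := by ring
    rw [h5]
    linarith
  have hD : (n : ℝ) * b ≤ 2 * (n * X) := by
    have h1 : (b : ℝ) ≤ 2 * X := by linarith
    have h2 := mul_le_mul_of_nonneg_left h1 hn0.le
    linarith
  have hnX : 0 ≤ (n : ℝ) * X := by positivity
  linarith

end analysis

end Pool.Agent.Helper963.RosaryLower
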