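import Mathlib

set_option autoImplicit false

namespace Pool.Agent.Helper963.RosaryUpper

/-- A strictly increasing choice of positions below `m` is a sublist of `List.range m`. -/
theorem map_sublist_range (n m : ℕ) (pos : ℕ → ℕ)
    (hmono : ∀ s t, s < t → t < n → pos s < pos t) (hlt : ∀ s, s < n → pos s < m) :
    List.Sublist ((List.range n).map pos) (List.range m) := by
  have h1 : ((List.range n).map pos).Pairwise (fun a b => a < b) := by
    rw [List.pairwise_map]
    refine List.Pairwise.imp_of_mem ?_ (List.pairwise_lt_range (n := n))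
    intro a b _ hb hab
    exact hmono a b hab (List.mem_range.1 hb)
  have h2 : (List.range m).Pairwise (fun a b => a ≤ b) :=
    (List.pairwise_lt_range (n := m)).imp (fun h => le_of_lt h)
  have hnd : ((List.range n).map pos).Nodup := h1.imp (fun h => ne_of_lt h)
  refine List.sublist_of_subperm_of_pairwise (r := fun a b : ℕ => a ≤ b)
    (List.subperm_of_subset hnd ?_) (h1.imp (fun h => le_of_lt h)) h2
  intro x hx
  rw [List.mem_map] at hx
  obtain ⟨s, hs, rfl⟩ := hx
  exact List.mem_range.2 (hlt s (List.mem_range.1 hs))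

/-- If `a` is a sublist of `b`, every rotation of `a` is a sublist of a rotation of `b`. -/
theorem rotate_sublist {α : Type*} (a b : List α) (h : List.Sublist a b) (j : ℕ) :
    ∃ k, List.Sublist (a.rotate j) (b.rotate k) := by
  have ha : a = a.take (j % a.length) ++ a.drop (j % a.length) :=
    (List.take_append_drop _ _).symm
  rw [ha] at h
  rw [List.append_sublist_iff] at h
  obtain ⟨r₁, r₂, rfl, h1, h2⟩ := h
  refine ⟨r₁.length, ?_⟩
  rw [List.rotate_eq_drop_append_take_mod, List.rotate_append_length_eq]
  exact h2.append h1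

/-- The number of cyclic descents before time `t`. -/
def D (c : ℕ → ℕ) : ℕ → ℕ
  | 0 => 0
  | t + 1 => D c t + if c (t + 1) < c t then 1 else 0

/-- The lifted position of the letter read at time `t`. -/
def P (n : ℕ) (c : ℕ → ℕ) (t : ℕ) : ℕ := c t + n * D c t

theorem P_succ (n : ℕ) (c : ℕ → ℕ) (hc : ∀ t, c t < n) (hne : ∀ t, c t ≠ c (t + 1)) (t : ℕ) :
    P n c t < P n c (t + 1) ∧ P n c (t + 1) < P n c t + n := by
  have h1 := hc t
  have h2 := hc (t + 1)
  have h3 := hne t
  unfold P
  rw [D]
  split_ifs with h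
  · rw [mul_add, mul_one]
    constructor <;> omega
  · rw [add_zero]
    constructor <;> omega

theorem D_add (n : ℕ) (c : ℕ → ℕ) (hper : ∀ t, c (t + n) = c t) (t : ℕ) :
    D c (t + n) = D c t + D c n := by
  induction t with
  | zero => simp [D]
  | succ t ih =>
    have h1 : t + 1 + n = (t + n) + 1 := by omega
    rw [h1, D, D, ih]
    have h2 : c (t + n + 1) = c (t + 1) := by
      rw [← h1]; exact hper (t + 1)
    rw [h2, hper t]
    omega

theorem D_mono (c : ℕ → ℕ) : Monotone (D c) := by
  apply monotone_nat_of_le_succ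
  intro t
  rw [D]
  exact Nat.le_add_right _ _

theorem D_le (c : ℕ → ℕ) (t : ℕ) : D c t ≤ t := by
  induction t with
  | zero => simp [D]
  | succ t ih =>
    rw [D]
    split_ifs <;> omega

theorem P_add_mul (n : ℕ) (c : ℕ → ℕ) (hper : ∀ t, c (t + n) = c t) (t s : ℕ) :
    P n c (t + n * s) = P n c t + n * (D c n * s) := by
  induction s with
  | zero => simp
  | succ s ih =>
    have h1 : t + n * (s + 1) = (t + n * s) + n := by ring
    have h2 : P n c ((t + n * s) + n) = P n c (t + n * s) + n * D c n := by
      unfold P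
      rw [D_add n c hper, hper]
      ring
    rw [h1, h2, ih]
    ring

theorem P_lip (n : ℕ) (c : ℕ → ℕ) (hc : ∀ t, c t < n) (hne : ∀ t, c t ≠ c (t + 1)) (t m : ℕ) :
    P n c (t + m) + m ≤ P n c t + n * m := by
  induction m with
  | zero => simp
  | succ m ih =>
    have h := (P_succ n c hc hne (t + m)).2
    have h1 : t + (m + 1) = t + m + 1 := by omega
    rw [h1, mul_add, mul_one]
    omega

/-- The combinatorial core: a cyclic arrangement of the residues can be read in the triangle
wave of amplitude `n ^ 2 / 4`. -/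
theorem core (n : ℕ) (hn : 2 ≤ n) (c : ℕ → ℕ) (hc : ∀ t, c t < n)
    (hne : ∀ t, c t ≠ c (t + 1)) (hper : ∀ t, c (t + n) = c t)
    (hsurj : ∀ y, y < n → ∃ t, t < n ∧ c t = y) :
    ∃ (t1 : ℕ) (pos : ℕ → ℕ), (∀ s t, s < t → t < n → pos s < pos t) ∧
      (∀ s, s < n → pos s < 2 * (n ^ 2 / 4)) ∧
      (∀ s, s < n → (if pos s ≤ n ^ 2 / 4 then pos s else 2 * (n ^ 2 / 4) - pos s) % n
        = c (t1 + s)) := by
  set A := n ^ 2 / 4 with hA
  set d := D c n with hd
  have hdn : d ≤ n := D_le c n
  obtain ⟨u, hu⟩ := Nat.exists_eq_add_of_le hdn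
  have hmono : StrictMono (P n c) := strictMono_nat_of_lt_succ (fun t => (P_succ n c hc hne t).1)
  have hdpos : 1 ≤ d := by
    have h1 := P_add_mul n c hper 0 1
    have h2 : P n c 0 < P n c (0 + n * 1) := hmono (by omega)
    rw [h1] at h2
    by_contra h0
    have h0' : D c n = 0 := by omega
    rw [h0'] at h2
    simp at h2
  -- every height is hit
  have hex : ∀ y, ∃ k, (1 ≤ k ∧ k ≤ d) ∧ ∃ t, P n c t = n * k + y := by
    intro y
    obtain ⟨ρ, hρn, hρ⟩ := hsurj (y % n) (Nat.mod_lt _ (by omega))
    have hv : D c ρ ≤ d := D_mono c (le_of_lt hρn)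
    have hy : n * (y / n) + y % n = y := Nat.div_add_mod y n
    obtain ⟨e, he⟩ : ∃ e, e = y / n := ⟨_, rfl⟩
    rw [← he] at hy
    have hs : ∃ s, e + 1 ≤ D c ρ + d * s ∧ D c ρ + d * s ≤ e + d := by
      by_cases h : e + 1 ≤ D c ρ
      · exact ⟨0, by omega, by omega⟩
      · refine ⟨(e - D c ρ) / d + 1, ?_, ?_⟩
        · have := Nat.lt_mul_div_succ (e - D c ρ) (show 0 < d by omega)
          omega
        · have := Nat.mul_div_le (e - D c ρ) d
          rw [mul_add, mul_one]
          omega
    obtain ⟨s, hs1, hs2⟩ := hs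
    refine ⟨D c ρ + d * s - e, ⟨by omega, by omega⟩, ρ + n * s, ?_⟩
    rw [P_add_mul n c hper, ← hd]
    have hk : n * (D c ρ + d * s - e) + n * e = n * (D c ρ + d * s) := by
      rw [← mul_add]
      congr 1
      omega
    unfold P
    rw [hρ]
    have h5 : n * (D c ρ + d * s) = n * D c ρ + n * (d * s) := by ring
    omega
  choose f hf1 hf2 using hex
  have hcard : (Finset.Icc 1 d).card * u < (Finset.range (A + 1)).card := by
    rw [Nat.card_Icc, Finset.card_range]
    have h4 : d * u ≤ A := by
      rw [hA, Nat.le_div_iff_mul_le (by norm_num)]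
      rw [hu]
      nlinarith [sq_nonneg ((d : ℤ) - u), Nat.le_total d u]
    have : d + 1 - 1 = d := by omega
    rw [this]
    omega
  obtain ⟨k, hk, hklt⟩ := Finset.exists_lt_card_fiber_of_mul_lt_card_of_maps_to
    (s := Finset.range (A + 1)) (t := Finset.Icc 1 d) (f := f) (n := u)
    (fun y _ => Finset.mem_Icc.2 (hf1 y)) hcard
  rw [Finset.mem_Icc] at hk
  have hexk : ∃ t, n * k ≤ P n c t := by
    obtain ⟨t, ht⟩ := hf2 0
    refine ⟨n * k, ?_⟩
    exact hmono.le_apply
  classical
  set t1 := Nat.find hexk with ht1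
  have ht1s : n * k ≤ P n c t1 := Nat.find_spec hexk
  have ht1m : ∀ t, n * k ≤ P n c t → t1 ≤ t := fun t ht => Nat.find_min' hexk ht
  have ht1pos : 1 ≤ t1 := by
    by_contra h0
    have h0' : t1 = 0 := by omega
    rw [h0'] at ht1s
    have h1 := hc 0
    have h2 : P n c 0 = c 0 := by simp [P, D]
    rw [h2] at ht1s
    have h3 : n * 1 ≤ n * k := Nat.mul_le_mul_left n hk.1
    omega
  have hprev : P n c (t1 - 1) < n * k := by
    by_contra h0
    have := ht1m (t1 - 1) (by omega)
    omega
  have hprev2 : n * k < P n c (t1 - 1) + n := by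
    have h := (P_succ n c hc hne (t1 - 1)).2
    have h1 : t1 - 1 + 1 = t1 := by omega
    rw [h1] at h
    omega
  have hup : P n c (t1 + u) ≤ n * k + A := by
    by_contra h0
    have hsub : (Finset.range (A + 1)).filter (fun x => f x = k) ⊆
        (Finset.Ico t1 (t1 + u)).image (fun t => P n c t - n * k) := by
      intro y hy
      rw [Finset.mem_filter, Finset.mem_range] at hy
      obtain ⟨hyA, hyk⟩ := hy
      obtain ⟨t, ht⟩ := hf2 y
      rw [hyk] at ht
      rw [Finset.mem_image]
      refine ⟨t, ?_, by omega⟩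
      rw [Finset.mem_Ico]
      refine ⟨ht1m t (by omega), ?_⟩
      apply hmono.lt_iff_lt.1
      omega
    have h1 := Finset.card_le_card hsub
    have h2 : ((Finset.Ico t1 (t1 + u)).image (fun t => P n c t - n * k)).card ≤ u := by
      refine le_trans Finset.card_image_le ?_
      rw [Nat.card_Ico]
      omega
    omega
  -- bounds in the descending zone
  have hdown : ∀ s, u < s → s < n →
      n * (k + (s - u)) < P n c (t1 + s) ∧ P n c (t1 + s) < n * (k + (s - u)) + A := by
    intro s hs1 hs2
    constructor
    · have h1 := P_lip n c hc hne (t1 + s) (n - 1 - s)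
      have h2 : t1 + s + (n - 1 - s) = (t1 - 1) + n * 1 := by omega
      rw [h2, P_add_mul n c hper] at h1
      have h3 : n * (k + (s - u)) + n * (n - 1 - s) + n = n * (k + d) := by
        have h4 : n * (k + (s - u)) + n * (n - 1 - s) + n
            = n * ((k + (s - u)) + (n - 1 - s) + 1) := by ring
        rw [h4]
        congr 1
        omega
      have h5 : n * (k + d) = n * k + n * (d * 1) := by ring
      rw [← hd] at h1
      omega
    · have h1 := P_lip n c hc hne (t1 + u) (s - u)
      have h2 : t1 + u + (s - u) = t1 + s := by omega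
      rw [h2] at h1
      have h3 : n * (k + (s - u)) = n * k + n * (s - u) := by ring
      omega
  refine ⟨t1, fun s => if s ≤ u then P n c (t1 + s) - n * k
    else 2 * A + n * (k + (s - u)) - P n c (t1 + s), ?_, ?_, ?_⟩
  · intro s t hst htn
    have hm : P n c (t1 + s) < P n c (t1 + t) := hmono (by omega)
    have hs0 : P n c t1 ≤ P n c (t1 + s) := hmono.monotone (by omega)
    by_cases ht : t ≤ u
    · have hs : s ≤ u := by omega
      simp only [ht, hs, if_true]
      omega
    · by_cases hs : s ≤ u
      · simp only [ht, hs, if_true, if_false]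
        have h1 := hdown t (by omega) htn
        have h2 : P n c (t1 + s) ≤ P n c (t1 + u) := hmono.monotone (by omega)
        omega
      · simp only [ht, hs, if_false]
        have h1 := hdown t (by omega) htn
        have h2 := hdown s (by omega) (by omega)
        have h3 := P_lip n c hc hne (t1 + s) (t - s)
        have h4 : t1 + s + (t - s) = t1 + t := by omega
        rw [h4] at h3
        have h5 : n * (k + (t - u)) = n * (k + (s - u)) + n * (t - s) := by
          rw [← mul_add]
          congr 1
          omega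
        omega
  · intro s hs
    by_cases hsu : s ≤ u
    · simp only [hsu, if_true]
      have h2 : P n c (t1 + s) ≤ P n c (t1 + u) := hmono.monotone (by omega)
      have hApos : 1 ≤ A := by
        rw [hA, Nat.le_div_iff_mul_le (by norm_num)]
        nlinarith
      omega
    · simp only [hsu, if_false]
      have h1 := hdown s (by omega) hs
      omega
  · intro s hs
    have hcmod : c (t1 + s) % n = c (t1 + s) := Nat.mod_eq_of_lt (hc _)
    by_cases hsu : s ≤ u
    · have h2 : P n c (t1 + s) ≤ P n c (t1 + u) := hmono.monotone (by omega)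
      have hs0 : P n c t1 ≤ P n c (t1 + s) := hmono.monotone (by omega)
      have hle : P n c (t1 + s) - n * k ≤ A := by omega
      simp only [hsu, if_true, hle]
      have h3 : P n c (t1 + s) = c (t1 + s) + n * D c (t1 + s) := rfl
      have h4 : (P n c (t1 + s) - n * k) % n = (P n c (t1 + s) - n * k + n * k) % n := by
        rw [Nat.add_mul_mod_self_left]
      rw [h4, Nat.sub_add_cancel (by omega), h3, Nat.add_mul_mod_self_left, hcmod]
    · have h1 := hdown s (by omega) hs
      have hle : ¬ (2 * A + n * (k + (s - u)) - P n c (t1 + s) ≤ A) := by omega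
      simp only [hsu, if_false, hle]
      have h6 : 2 * A - (2 * A + n * (k + (s - u)) - P n c (t1 + s))
          = P n c (t1 + s) - n * (k + (s - u)) := by omega
      rw [h6]
      have h3 : P n c (t1 + s) = c (t1 + s) + n * D c (t1 + s) := rfl
      have h4 : (P n c (t1 + s) - n * (k + (s - u))) % n
          = (P n c (t1 + s) - n * (k + (s - u)) + n * (k + (s - u))) % n := by
        rw [Nat.add_mul_mod_self_left]
      rw [h4, Nat.sub_add_cancel (by omega), h3, Nat.add_mul_mod_self_left, hcmod]

/-- For every n ≥ 2 there is a cyclic word of length at most floor(n²/2) over n symbols such that every permutation of the n symbols is a subsequence of some rotation of the word. -/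
theorem gupta :
    ∀ n : ℕ, 2 ≤ n →
      ∃ l : List (Fin n), l.length ≤ n ^ 2 / 2 ∧
        ∀ σ : Equiv.Perm (Fin n), ∃ k : ℕ,
          List.Sublist (List.ofFn (⇑σ)) (l.rotate k) := by
  intro n hn
  have : NeZero n := ⟨by omega⟩
  refine ⟨(List.range (2 * (n ^ 2 / 4))).map
    (fun x => Fin.ofNat n (if x ≤ n ^ 2 / 4 then x else 2 * (n ^ 2 / 4) - x)), ?_, ?_⟩
  · rw [List.length_map, List.length_range]
    omega
  intro σ
  set c : ℕ → ℕ := fun t => (σ (Fin.ofNat n t)).val with hcdef
  have hc : ∀ t, c t < n := fun t => (σ (Fin.ofNat n t)).isLt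
  have hne : ∀ t, c t ≠ c (t + 1) := by
    intro t h
    have h1 : σ (Fin.ofNat n t) = σ (Fin.ofNat n (t + 1)) := Fin.ext h
    have h2 := σ.injective h1
    have h3 : t % n = (t + 1) % n := by
      have := congrArg Fin.val h2
      simpa [Fin.val_ofNat] using this
    have h4 : t ≡ t + 1 [MOD n] := h3
    have h5 := (Nat.modEq_iff_dvd' (by omega : t ≤ t + 1)).1 h4
    have h6 : t + 1 - t = 1 := by omega
    rw [h6] at h5
    have := Nat.le_of_dvd (by omega) h5
    omega
  have hper : ∀ t, c (t + n) = c t := by
    intro t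
    have : Fin.ofNat n (t + n) = Fin.ofNat n t := by
      apply Fin.ext
      simp
    simp only [hcdef, this]
  have hsurj : ∀ y, y < n → ∃ t, t < n ∧ c t = y := by
    intro y hy
    obtain ⟨x, hx⟩ := σ.surjective ⟨y, hy⟩
    refine ⟨x.val, x.isLt, ?_⟩
    have h1 : Fin.ofNat n x.val = x := by
      apply Fin.ext
      simp
    simp only [hcdef, h1, hx]
  obtain ⟨t1, pos, hpm, hpl, hpc⟩ := core n hn c hc hne hper hsurj
  have hsub := (map_sublist_range n (2 * (n ^ 2 / 4)) pos hpm hpl).map
    (fun x => Fin.ofNat n (if x ≤ n ^ 2 / 4 then x else 2 * (n ^ 2 / 4) - x))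
  have heq : ((List.range n).map pos).map
      (fun x => Fin.ofNat n (if x ≤ n ^ 2 / 4 then x else 2 * (n ^ 2 / 4) - x))
      = (List.ofFn (⇑σ)).rotate t1 := by
    apply List.ext_getElem
    · simp
    · intro i h1 h2
      have hi : i < n := by simpa using h1
      rw [List.getElem_rotate]
      simp only [List.getElem_map, List.getElem_range, List.getElem_ofFn, List.length_ofFn]
      apply Fin.ext
      rw [Fin.val_ofNat, hpc i hi]
      simp only [hcdef]
      congr 2
      apply Fin.ext
      rw [Fin.val_ofNat, add_comm]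
  rw [heq] at hsub
  obtain ⟨k, hk⟩ := rotate_sublist _ _ hsub (n - t1 % n)
  refine ⟨k, ?_⟩
  have h7 : ((List.ofFn (⇑σ)).rotate t1).rotate (n - t1 % n) = List.ofFn (⇑σ) := by
    rw [List.rotate_rotate]
    have h8 : t1 + (n - t1 % n) = n * (t1 / n + 1) := by
      have := Nat.div_add_mod t1 n
      have h9 := Nat.mod_lt t1 (show n > 0 by omega)
      rw [mul_add, mul_one]
      omega
    rw [h8]
    have h10 := List.rotate_length_mul (List.ofFn (⇑σ)) (t1 / n + 1)
    rw [List.length_ofFn] at h10
    exact h10
  rw [h7] at hk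
  exact hk

end Pool.Agent.Helper963.RosaryUpper
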